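import Pool.Agent.Helper79.GT.St1

/-!
# Project GT, module VAL: the value for both superko rules
-/

set_option autoImplicit false

namespace Pool.Agent.Helper29.GT

open Pool.Agent.Helper19.SK Pool.Agent.Helper79.GS Pool.Agent.Helper79.GT

theorem hVAL (hWNM : StWNM) (hWNS : StWNS) (hBRG : StBRG) (hBRM : StBRM) :
    Pool.Agent.Helper79.GT.StVAL := by
  intro P _ A hA sk H₀ hs r b c hB
  cases sk with
  | true => exact hWNS P A hA H₀ r b c hB
  | false =>
    have hs' := hs rfl
    have e : {x | ∃ s, (s, x) ∈ insert (c, b) H₀} = insert b {x | (true, x) ∈ H₀} := by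
      ext x
      constructor
      · rintro ⟨s, h⟩
        rcases h with h | h
        · exact Or.inl (Prod.mk.inj h).2
        · right
          cases s with
          | true => exact h
          | false => exact (hs' x).2 h
      · rintro (h | h)
        · subst h
          exact ⟨c, Or.inl rfl⟩
        · exact ⟨true, Or.inr h⟩
    rw [hBRM P A (insert (c, b) H₀) false c b ⟨c, Or.inl rfl⟩, e,
      hWNM P A hA {x | (true, x) ∈ H₀} r b c hB, hBRG P A H₀ hs' r c b]

end Pool.Agent.Helper29.GT
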